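import Pool.Agent.Helper13.JS.St

/-!
# Project JS, module VB: upper bound for the part with an ON prime `n`
-/

set_option autoImplicit false

noncomputable section

namespace Pool.Agent.Helper72.JS

open Finset ArithmeticFunction Pool.Agent.Helper13.JS
open Pool.Agent.Helper15.AB (IsW Th SP SN)
open Pool.Agent.Helper60.GP (II)

/-- the classes to be avoided -/
theorem vb_class {x p : ℕ} {a : ℕ → ℤ} (hp : p.Prime) (hpO : p ∈ On x a) :
    ∃ e : ℕ → ℤ, ∀ s : ℕ, (s ∈ On x a → e s = 0) ∧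
      (s ∉ On x a → s.Prime → (s : ℤ) ∣ e s * p - a s) := by
  have h : ∀ s : ℕ, ∃ e : ℤ, (s ∈ On x a → e = 0) ∧
      (s ∉ On x a → s.Prime → (s : ℤ) ∣ e * p - a s) := by
    intro s
    by_cases hs : s ∈ On x a
    · exact ⟨0, fun _ => rfl, fun h => absurd hs h⟩
    by_cases hsp : s.Prime
    · have hne : s ≠ p := by
        rintro rfl
        exact hs hpO
      have hcop : IsCoprime (p : ℤ) (s : ℤ) := by
        rw [Nat.isCoprime_iff_coprime]
        exact (Nat.coprime_primes hp hsp).mpr hne.symm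
      obtain ⟨u, v, huv⟩ := hcop
      refine ⟨a s * u, fun h => absurd h hs, fun _ _ => ⟨- (a s * v), ?_⟩⟩
      linear_combination (a s) * huv
    · exact ⟨0, fun h => absurd h hs, fun _ h => absurd h hsp⟩
  choose e he using h
  exact ⟨e, he⟩

open Classical in
/-- the `m` in question avoid one class modulo every prime `5 ≤ s ≤ w` -/
theorem vb_count {x p w M : ℕ} {κ : ℝ} {a e : ℕ → ℤ} (hwx : w ≤ x)
    (hwκ : (w : ℝ) ≤ (x : ℝ) ^ κ)
    (he : ∀ s : ℕ, (s ∈ On x a → e s = 0) ∧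
      (s ∉ On x a → s.Prime → (s : ℤ) ∣ e s * p - a s)) :
    ((Icc 1 M).filter (fun m : ℕ => al x a m ≠ 0 ∧
      ∀ s ∈ Qs x κ a, ¬ (s : ℤ) ∣ ((m * p : ℕ) : ℤ) - a s)).card ≤
    ((range (M + 1)).filter (fun h : ℕ => ∀ s : ℕ, s.Prime → 5 ≤ s → s ≤ w →
      ¬ (s : ℤ) ∣ (0 : ℤ) + h * ((1 : ℕ) : ℤ) - e s)).card := by
  refine Finset.card_le_card (fun m hm => ?_)
  rw [Finset.mem_filter, Finset.mem_Icc] at hm
  obtain ⟨⟨_, hmM⟩, hal, hP⟩ := hm
  rw [Finset.mem_filter, Finset.mem_range]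
  refine ⟨by omega, fun s hs h5 hsw hd => ?_⟩
  have hal' : ∀ p ∈ On x a, ¬ p ∣ m := by
    by_contra hc
    apply hal
    unfold al
    rw [if_neg (fun h => hc h.1)]
  by_cases hsO : s ∈ On x a
  · rw [(he s).1 hsO] at hd
    apply hal' s hsO
    have : (s : ℤ) ∣ (m : ℤ) := by simpa using hd
    exact_mod_cast this
  · have hQ : s ∈ Qs x κ a := by
      unfold Qs
      rw [Finset.mem_filter, Finset.mem_Icc]
      refine ⟨⟨by omega, by omega⟩, hs, ?_, ?_⟩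
      · exact le_trans (by exact_mod_cast hsw) hwκ
      · intro hda
        apply hsO
        unfold On
        rw [Finset.mem_filter, Finset.mem_Icc]
        exact ⟨⟨by omega, by omega⟩, hs, hda⟩
    apply hP s hQ
    have h1 : (s : ℤ) ∣ ((m : ℤ) - e s) * p := Dvd.dvd.mul_right (by simpa using hd) _
    have h2 := dvd_add h1 ((he s).2 hsO hs)
    have h3 : ((m : ℤ) - e s) * p + (e s * p - a s) = ((m * p : ℕ) : ℤ) - a s := by
      push_cast
      ring
    rwa [h3] at h2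

theorem vb_al {x : ℕ} {a : ℕ → ℤ} (m : ℕ) : 0 ≤ al x a m ∧ al x a m ≤ 1 := by
  unfold al
  split_ifs <;> norm_num

/-- logarithms against powers -/
theorem vb_log : ∃ z₀ : ℝ, ∀ z : ℝ, z₀ ≤ z → 2 * Real.log z ≤ z ^ (1 / 4 : ℝ) := by
  have hlo : ∀ᶠ z : ℝ in Filter.atTop, 2 * Real.log z ≤ z ^ (1 / 4 : ℝ) := by
    have h := (isLittleO_log_rpow_atTop (show (0 : ℝ) < 1 / 4 by norm_num)).bound
      (show (0 : ℝ) < 1 / 2 by norm_num)
    filter_upwards [h, Filter.eventually_ge_atTop (1 : ℝ)] with z hz hz1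
    rw [Real.norm_eq_abs, Real.norm_eq_abs, abs_of_nonneg (Real.log_nonneg hz1),
      abs_of_nonneg (by positivity)] at hz
    linarith
  exact Filter.eventually_atTop.1 hlo

/-- the proper prime powers -/
theorem vb_pow {x y V κ₁ M : ℝ} (hx : 1 ≤ x) (hy : 0 ≤ y) (hV : 1 ≤ V) (_hκ : 0 < κ₁)
    (hxV : x ^ κ₁ ≤ V) (hM : M ≤ y / (3 * V))
    (hlog : 2 * Real.log (3 * V) ≤ (3 * V) ^ (1 / 4 : ℝ)) :
    M * ∑ n ∈ (II V).filter (fun n : ℕ => ¬ n.Prime), Λ n ≤ y * x ^ (-(κ₁ / 4)) := by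
  have hz : 0 < 3 * V := by linarith
  have h1 : ∑ n ∈ (II V).filter (fun n : ℕ => ¬ n.Prime), Λ n =
      Chebyshev.psi (3 * V) - Chebyshev.theta (3 * V) := by
    rw [Chebyshev.psi_sub_theta_eq_sum_not_prime]
    refine Finset.sum_congr ?_ (fun _ _ => rfl)
    ext n
    simp only [II, Finset.mem_filter, Finset.mem_Icc, Finset.mem_Ioc]
    constructor
    · rintro ⟨⟨h1, h2⟩, h3⟩
      exact ⟨⟨by omega, h2⟩, h3⟩
    · rintro ⟨⟨h1, h2⟩, h3⟩
      exact ⟨⟨by omega, h2⟩, h3⟩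
  have h2 : Chebyshev.psi (3 * V) - Chebyshev.theta (3 * V) ≤
      2 * √(3 * V) * Real.log (3 * V) := Chebyshev.psi_sub_theta_le (by linarith)
  have h0 : 0 ≤ ∑ n ∈ (II V).filter (fun n : ℕ => ¬ n.Prime), Λ n :=
    Finset.sum_nonneg fun _ _ => vonMangoldt_nonneg
  have h3 : √(3 * V) = (3 * V) ^ (1 / 2 : ℝ) := Real.sqrt_eq_rpow _
  have h4 : 2 * √(3 * V) * Real.log (3 * V) ≤ (3 * V) ^ (3 / 4 : ℝ) := by
    have : (3 * V) ^ (3 / 4 : ℝ) = (3 * V) ^ (1 / 2 : ℝ) * (3 * V) ^ (1 / 4 : ℝ) := by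
      rw [← Real.rpow_add hz]
      norm_num
    rw [this, h3]
    have h5 : 0 ≤ (3 * V) ^ (1 / 2 : ℝ) := Real.rpow_nonneg hz.le _
    nlinarith
  have h6 : (y / (3 * V)) * (3 * V) ^ (3 / 4 : ℝ) = y * (3 * V) ^ (-(1 / 4) : ℝ) := by
    have : (3 * V) ^ (3 / 4 : ℝ) = (3 * V) * (3 * V) ^ (-(1 / 4) : ℝ) := by
      nth_rewrite 2 [← Real.rpow_one (3 * V)]
      rw [← Real.rpow_add hz]
      norm_num
    rw [this]
    field_simp
  have h7 : (3 * V) ^ (-(1 / 4) : ℝ) ≤ x ^ (-(κ₁ / 4)) := by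
    have h8 : x ^ (-(κ₁ / 4)) = (x ^ κ₁) ^ (-(1 / 4) : ℝ) := by
      rw [← Real.rpow_mul (by linarith)]
      congr 1
      ring
    rw [h8]
    refine Real.rpow_le_rpow_of_nonpos ?_ ?_ (by norm_num)
    · exact Real.rpow_pos_of_pos (by linarith) _
    · linarith
  calc M * ∑ n ∈ (II V).filter (fun n : ℕ => ¬ n.Prime), Λ n
      ≤ (y / (3 * V)) * ∑ n ∈ (II V).filter (fun n : ℕ => ¬ n.Prime), Λ n :=
        mul_le_mul_of_nonneg_right hM h0
    _ ≤ (y / (3 * V)) * (3 * V) ^ (3 / 4 : ℝ) := by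
        refine mul_le_mul_of_nonneg_left ?_ (by positivity)
        rw [h1]
        linarith
    _ = y * (3 * V) ^ (-(1 / 4) : ℝ) := h6
    _ ≤ y * x ^ (-(κ₁ / 4)) := mul_le_mul_of_nonneg_left h7 hy

theorem hVB (hUB : StUB) : StVB := by
  intro ω hω κ hκ hκ4
  obtain ⟨B, CU, hB1, hCU1, hUB⟩ := hUB
  have hBpos : (0 : ℝ) < B := by exact_mod_cast hB1
  obtain ⟨κ₂, hκ₂0, hκ₂κ, hκ₂B⟩ : ∃ κ₂ : ℝ, 0 < κ₂ ∧ κ₂ ≤ κ ∧ κ₂ * B ≤ 1 / 8 := by
    refine ⟨min κ (1 / (8 * B)), lt_min hκ (by positivity), min_le_left _ _, ?_⟩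
    calc min κ (1 / (8 * (B : ℝ))) * B ≤ (1 / (8 * B)) * B :=
          mul_le_mul_of_nonneg_right (min_le_right _ _) hBpos.le
      _ = 1 / 8 := by field_simp
  refine ⟨6 * CU / κ₂, by positivity, fun κ₁ hκ₁ => ?_⟩
  obtain ⟨z₀, hz₀⟩ := vb_log
  have hx1 : ∀ᶠ x : ℝ in Filter.atTop, max z₀ 3 ≤ x ^ κ₁ :=
    (tendsto_rpow_atTop hκ₁).eventually_ge_atTop _
  have hx2 : ∀ᶠ x : ℝ in Filter.atTop, 3 ≤ x ^ (3 / 8 : ℝ) :=
    (tendsto_rpow_atTop (by norm_num)).eventually_ge_atTop _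
  obtain ⟨x₁, hx₁⟩ := Filter.eventually_atTop.1 (hx1.and hx2)
  refine ⟨max x₁ 2, le_max_right _ _, fun x y a V hx hxy hy2 hV1 hV2 => ?_⟩
  obtain ⟨hxa, hxb⟩ := hx₁ x (le_trans (le_max_left _ _) hx)
  have hx2 : (2 : ℝ) ≤ x := le_trans (le_max_right _ _) hx
  have hx0 : (0 : ℝ) < x := by linarith
  have hxyR : (x : ℝ) ≤ y := by exact_mod_cast hxy
  have hy0 : (0 : ℝ) < y := by linarith
  have hV3 : 3 ≤ V := le_trans (le_trans (le_max_right _ _) hxa) hV1
  have hVz : z₀ ≤ 3 * V := by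
    have : z₀ ≤ V := le_trans (le_trans (le_max_left _ _) hxa) hV1
    linarith
  have hV0 : 0 < V := by linarith
  have hlogx : 0 < Real.log x := Real.log_pos (by linarith)
  have hlogV : 0 < Real.log V := Real.log_pos (by linarith)
  -- `y / (3 V) ≥ x ^ (1/8) ≥ 1`
  have hq : (x : ℝ) ^ (1 / 8 : ℝ) ≤ y / (3 * V) := by
    rw [le_div_iff₀ (by positivity)]
    have h8 : 0 ≤ (x : ℝ) ^ (1 / 8 : ℝ) := Real.rpow_nonneg hx0.le _
    have h9 : 3 * V ≤ (x : ℝ) ^ (3 / 8 : ℝ) * (x : ℝ) ^ (1 / 2 : ℝ) :=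
      mul_le_mul hxb hV2 hV0.le (Real.rpow_nonneg hx0.le _)
    calc (x : ℝ) ^ (1 / 8 : ℝ) * (3 * V)
        ≤ (x : ℝ) ^ (1 / 8 : ℝ) * ((x : ℝ) ^ (3 / 8 : ℝ) * (x : ℝ) ^ (1 / 2 : ℝ)) :=
          mul_le_mul_of_nonneg_left h9 h8
      _ = x := by
          rw [← Real.rpow_add hx0, ← Real.rpow_add hx0]
          norm_num
      _ ≤ y := hxyR
  have hq1 : 1 ≤ (x : ℝ) ^ (1 / 8 : ℝ) := Real.one_le_rpow (by linarith) (by norm_num)
  set M : ℕ := ⌊(y : ℝ) / (3 * V)⌋₊ with hM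
  have hMle : (M : ℝ) ≤ y / (3 * V) := Nat.floor_le (by positivity)
  have hMlt : (y : ℝ) / (3 * V) < M + 1 := Nat.lt_floor_add_one _
  have hM1 : (M : ℝ) + 1 ≤ y / V := by
    have h1 : (y : ℝ) / V = 3 * (y / (3 * V)) := by field_simp
    rw [h1]
    linarith
  -- the sieving range
  set w : ℕ := ⌊(x : ℝ) ^ κ₂⌋₊ with hw
  have hxκ : 1 ≤ (x : ℝ) ^ κ₂ := Real.one_le_rpow (by linarith) hκ₂0.le
  have hwle : (w : ℝ) ≤ (x : ℝ) ^ κ₂ := Nat.floor_le (by linarith)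
  have hwlt : (x : ℝ) ^ κ₂ < w + 1 := Nat.lt_floor_add_one _
  have hw1 : 1 ≤ w := Nat.le_floor (by simpa using hxκ)
  have hwx : w ≤ x := by
    have h1 : (x : ℝ) ^ κ₂ ≤ (x : ℝ) ^ (1 : ℝ) :=
      Real.rpow_le_rpow_of_exponent_le (by linarith) (by linarith)
    rw [Real.rpow_one] at h1
    exact_mod_cast le_trans hwle h1
  have hwκ : (w : ℝ) ≤ (x : ℝ) ^ κ :=
    le_trans hwle (Real.rpow_le_rpow_of_exponent_le (by linarith) hκ₂κ)
  have hwB : w ^ B ≤ M + 1 := by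
    have h1 : (w : ℝ) ^ B ≤ (M : ℝ) + 1 := by
      calc (w : ℝ) ^ B ≤ ((x : ℝ) ^ κ₂) ^ B := pow_le_pow_left₀ (by positivity) hwle B
        _ = (x : ℝ) ^ (κ₂ * B) := by rw [Real.rpow_mul_natCast hx0.le]
        _ ≤ (x : ℝ) ^ (1 / 8 : ℝ) := Real.rpow_le_rpow_of_exponent_le (by linarith) hκ₂B
        _ ≤ y / (3 * V) := hq
        _ ≤ M + 1 := hMlt.le
    exact_mod_cast h1
  have hlogw : κ₂ * Real.log x ≤ Real.log (w + 1) := by
    rw [← Real.log_rpow hx0]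
    exact Real.log_le_log (by positivity) hwlt.le
  -- the weight of `n`
  obtain ⟨g, hg⟩ : ∃ g : ℕ → ℝ, ∀ n, g n = Λ n * ω (Real.log (n / V)) := ⟨_, fun _ => rfl⟩
  have hg0 : ∀ n, 0 ≤ g n := fun n => by
    rw [hg]
    exact mul_nonneg vonMangoldt_nonneg (hω.nonneg _)
  have hgΛ : ∀ n, g n ≤ Λ n := fun n => by
    rw [hg]
    exact mul_le_of_le_one_right vonMangoldt_nonneg (hω.le_one _)
  obtain ⟨K, hK⟩ : ∃ K : ℝ, K = 6 * CU / κ₂ * (y / Real.log x) * Real.log V := ⟨_, rfl⟩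
  have hK0 : 0 ≤ K := by
    rw [hK]
    positivity
  -- one `n`
  have hT : ∀ n ∈ II V, (∑ m ∈ Icc 1 M,
      if (∀ s ∈ Qs x κ a, ¬ (s : ℤ) ∣ ((m * n : ℕ) : ℤ) - a s) ∧ n.minFac ∈ On x a
        then al x a m * g n else 0) ≤
      (if n ∈ (On x a).filter (fun p : ℕ => V / 2 < (p : ℝ) ∧ (p : ℝ) ≤ 3 * V)
        then K * (1 / (n : ℝ)) else 0) +
      (if ¬ n.Prime then (M : ℝ) * Λ n else 0) := by
    intro n hn
    have hn3 : (n : ℝ) ≤ 3 * V := by
      rw [II, Finset.mem_Icc] at hn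
      exact le_trans (by exact_mod_cast hn.2) (Nat.floor_le (by positivity))
    have hn1 : 1 ≤ n := by
      rw [II, Finset.mem_Icc] at hn
      exact hn.1
    have hn0 : (0 : ℝ) < n := by exact_mod_cast hn1
    have hfirst : 0 ≤ (if n ∈ (On x a).filter (fun p : ℕ => V / 2 < (p : ℝ) ∧ (p : ℝ) ≤ 3 * V)
        then K * (1 / (n : ℝ)) else 0) := by
      split_ifs
      · positivity
      · exact le_rfl
    by_cases hnp : n.Prime
    swap
    · rw [if_pos hnp]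
      have h1 : (∑ m ∈ Icc 1 M,
          if (∀ s ∈ Qs x κ a, ¬ (s : ℤ) ∣ ((m * n : ℕ) : ℤ) - a s) ∧ n.minFac ∈ On x a
            then al x a m * g n else 0) ≤ ∑ m ∈ Icc 1 M, Λ n := by
        refine Finset.sum_le_sum (fun m _ => ?_)
        split_ifs
        · calc al x a m * g n ≤ 1 * g n := mul_le_mul_of_nonneg_right (vb_al m).2 (hg0 n)
            _ ≤ Λ n := by rw [one_mul]; exact hgΛ n
        · exact vonMangoldt_nonneg
      rw [Finset.sum_const, Nat.card_Icc, nsmul_eq_mul, Nat.add_sub_cancel] at h1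
      linarith
    · rw [if_neg (not_not.mpr hnp), add_zero]
      rw [hnp.minFac_eq]
      by_cases hnO : n ∈ On x a
      swap
      · have : (∑ m ∈ Icc 1 M,
          if (∀ s ∈ Qs x κ a, ¬ (s : ℤ) ∣ ((m * n : ℕ) : ℤ) - a s) ∧ n ∈ On x a
            then al x a m * g n else 0) = 0 := by
          refine Finset.sum_eq_zero (fun m _ => ?_)
          rw [if_neg (fun h => hnO h.2)]
        rw [this]
        exact hfirst
      by_cases hnV : (n : ℝ) < V
      · have hg1 : g n = 0 := by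
          rw [hg, hω.supp, mul_zero]
          intro h
          have h1 : Real.log (n / V) < 0 :=
            Real.log_neg (by positivity) ((div_lt_one hV0).mpr hnV)
          exact absurd h.1 (not_le.mpr h1)
        have : (∑ m ∈ Icc 1 M,
          if (∀ s ∈ Qs x κ a, ¬ (s : ℤ) ∣ ((m * n : ℕ) : ℤ) - a s) ∧ n ∈ On x a
            then al x a m * g n else 0) = 0 := by
          refine Finset.sum_eq_zero (fun m _ => ?_)
          rw [hg1]
          simp
        rw [this]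
        exact hfirst
      rw [not_lt] at hnV
      rw [if_pos (Finset.mem_filter.mpr ⟨hnO, by linarith, hn3⟩)]
      obtain ⟨e, he⟩ := vb_class hnp hnO
      classical
      have hc1 := vb_count (M := M) hwx hwκ he
      have hc2 := hUB w (M + 1) 1 hw1 hwB (fun s hs _ h => hs.one_lt.ne' (Nat.dvd_one.mp h)) 0 e
      have hc3 : (((Icc 1 M).filter (fun m : ℕ => al x a m ≠ 0 ∧
          ∀ s ∈ Qs x κ a, ¬ (s : ℤ) ∣ ((m * n : ℕ) : ℤ) - a s)).card : ℝ) ≤
          CU * (y / V) / (κ₂ * Real.log x) := by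
        calc (((Icc 1 M).filter (fun m : ℕ => al x a m ≠ 0 ∧
          ∀ s ∈ Qs x κ a, ¬ (s : ℤ) ∣ ((m * n : ℕ) : ℤ) - a s)).card : ℝ)
            ≤ CU * ((M + 1 : ℕ) : ℝ) / Real.log (w + 1) := by
              refine le_trans (Nat.cast_le.mpr hc1) ?_
              exact hc2
          _ ≤ CU * (y / V) / (κ₂ * Real.log x) := by
              refine div_le_div₀ (by positivity) ?_ (by positivity) hlogw
              refine mul_le_mul_of_nonneg_left ?_ (by linarith)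
              push_cast
              exact hM1
      have hg2 : g n ≤ 2 * Real.log V := by
        refine le_trans (hgΛ n) ?_
        rw [vonMangoldt_apply_prime hnp]
        calc Real.log n ≤ Real.log (V * V) := by
              refine Real.log_le_log hn0 ?_
              nlinarith
          _ = 2 * Real.log V := by
              rw [Real.log_mul hV0.ne' hV0.ne']
              ring
      have hs1 : (∑ m ∈ Icc 1 M,
          if (∀ s ∈ Qs x κ a, ¬ (s : ℤ) ∣ ((m * n : ℕ) : ℤ) - a s) ∧ n ∈ On x a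
            then al x a m * g n else 0) ≤
          (((Icc 1 M).filter (fun m : ℕ => al x a m ≠ 0 ∧
            ∀ s ∈ Qs x κ a, ¬ (s : ℤ) ∣ ((m * n : ℕ) : ℤ) - a s)).card : ℝ) * g n := by
        rw [← nsmul_eq_mul, ← Finset.sum_const, Finset.sum_filter]
        refine Finset.sum_le_sum (fun m _ => ?_)
        by_cases hP : ∀ s ∈ Qs x κ a, ¬ (s : ℤ) ∣ ((m * n : ℕ) : ℤ) - a s
        · rw [if_pos ⟨hP, hnO⟩]
          by_cases ha : al x a m = 0
          · rw [ha, zero_mul, if_neg (fun h => h.1 rfl)]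
          · rw [if_pos ⟨ha, hP⟩]
            exact mul_le_of_le_one_left (hg0 n) (vb_al m).2
        · rw [if_neg (fun h => hP h.1), if_neg (fun h => hP h.2)]
      refine le_trans hs1 ?_
      have hn_inv : 1 / V ≤ 3 * (1 / (n : ℝ)) := by
        rw [div_le_iff₀ hV0]
        have : 3 * (1 / (n : ℝ)) * V = (3 * V) / n := by ring
        rw [this, le_div_iff₀ hn0]
        linarith
      calc (((Icc 1 M).filter (fun m : ℕ => al x a m ≠ 0 ∧
            ∀ s ∈ Qs x κ a, ¬ (s : ℤ) ∣ ((m * n : ℕ) : ℤ) - a s)).card : ℝ) * g n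
          ≤ (CU * (y / V) / (κ₂ * Real.log x)) * (2 * Real.log V) :=
            mul_le_mul hc3 hg2 (hg0 n) (by positivity)
        _ = (2 * CU / κ₂ * (y / Real.log x) * Real.log V) * (1 / V) := by
            field_simp
        _ ≤ (2 * CU / κ₂ * (y / Real.log x) * Real.log V) * (3 * (1 / (n : ℝ))) :=
            mul_le_mul_of_nonneg_left hn_inv (by positivity)
        _ = K * (1 / (n : ℝ)) := by
            rw [hK]
            ring
  -- exchange of the sums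
  have hex : (∑ m ∈ Icc 1 M,
      ∑ n ∈ (II V).filter (fun n : ℕ => (∀ s ∈ Qs x κ a, ¬ (s : ℤ) ∣ ((m * n : ℕ) : ℤ) - a s) ∧
        n.minFac ∈ On x a), al x a m * (Λ n * ω (Real.log (n / V)))) =
      ∑ n ∈ II V, ∑ m ∈ Icc 1 M,
        if (∀ s ∈ Qs x κ a, ¬ (s : ℤ) ∣ ((m * n : ℕ) : ℤ) - a s) ∧ n.minFac ∈ On x a
          then al x a m * g n else 0 := by
    rw [Finset.sum_comm]
    refine Finset.sum_congr rfl (fun m _ => ?_)
    rw [Finset.sum_filter]
    refine Finset.sum_congr rfl (fun n _ => ?_)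
    rw [hg]
  rw [hex]
  refine le_trans (Finset.sum_le_sum hT) ?_
  rw [Finset.sum_add_distrib]
  refine add_le_add ?_ ?_
  · rw [← Finset.sum_filter]
    have h1 : (∑ n ∈ (II V).filter (fun n => n ∈ (On x a).filter
        (fun p : ℕ => V / 2 < (p : ℝ) ∧ (p : ℝ) ≤ 3 * V)), K * (1 / (n : ℝ))) ≤
        ∑ n ∈ (On x a).filter (fun p : ℕ => V / 2 < (p : ℝ) ∧ (p : ℝ) ≤ 3 * V),
          K * (1 / (n : ℝ)) := by
      refine Finset.sum_le_sum_of_subset_of_nonneg ?_ (fun n _ _ => by positivity)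
      intro n hn
      exact (Finset.mem_filter.mp hn).2
    refine le_trans h1 (le_of_eq ?_)
    rw [← Finset.mul_sum, hK]
    unfold ms
    ring
  · rw [← Finset.sum_filter, ← Finset.mul_sum]
    exact vb_pow (by linarith) hy0.le (by linarith) hκ₁ hV1 hMle (hz₀ _ hVz)

end Pool.Agent.Helper72.JS
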